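import Pool.Agent.Lib.MP_d8fb5e_lc.Main

namespace Pool.Agent.Results.MP_d8fb5e_lc.ExactSampler

open Pool.Agent.Lib.PRam Pool.Agent.Lib.MP_d8fb5e_lc
open scoped ENNReal

/-- There is a randomised algorithm (a program of a probabilistic random-access machine with
logarithmic costs) with expected running time polynomial in the number of faces which, given a
finite simplicial complex of any dimension `d ≥ 1`, outputs every `d`-dimensional spanning tree with
the same probability, one over the number of spanning trees. -/
theorem result : ∃ (P : List Instr) (C : ℕ), ∀ (Δ : SComplex) (d : ℕ), 1 ≤ d → Δ.HasDim d →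
    (∀ Υ, Δ.IsTree d Υ → outProb P Δ.code (Δ.out Υ) =
      1 / (Nat.card {Υ // Δ.IsTree d Υ} : ℝ≥0∞)) ∧
    expCost P Δ.code ≤ (C * (Δ.faces.length + 1) ^ C : ℕ) :=
  ⟨prog, main⟩

end Pool.Agent.Results.MP_d8fb5e_lc.ExactSampler
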